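import Pool.Agent.TH464.PO.ShiftInst

set_option autoImplicit false

/-!
# The exponential law for the gaps between almost prime quadruples `m`, `m + a`, `m + b`, `m + c`,
uniformly

Let `m` be good if `m`, `m + a`, `m + b` and `m + c` all have at most `r` prime factors, all
larger than `X ^ (1 / r)`. Let `V` be the product of `1 - ρ(p) / p` over the primes `p ≤ X ^ (1 /
r)`. Uniformly for all admissible `a < b < c ≤ X`, in ALL intervals `(Z, Z + Y]` inside `[0, 2 X]`
of length `Y ≥ X ^ θ` the gaps between consecutive good integers have, in the scale `1 / V`, the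
exponential distribution up to `ε`, uniformly in all gap lengths; more generally the distances
between a good integer and its `k`-th good predecessor have the Gamma distribution up to `ε`.
-/

namespace Pool.Agent.Results.MP_092512_nt.GapsUniform

open Finset Filter

/-- `N` has at most `B` prime factors (with multiplicity), all of them larger than `z`. -/
def AlmostPrime (B : ℕ) (z : ℝ) (N : ℕ) : Prop :=
  N.primeFactorsList.length ≤ B ∧ ∀ p : ℕ, p.Prime → p ∣ N → z < (p : ℝ)

/-- `m` is good: `m`, `m + a`, `m + b` and `m + c` all have at most `r` prime factors, all larger than `X ^ (1 / r)`. -/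
def Good (r X a b c m : ℕ) : Prop :=
  AlmostPrime r ((X : ℝ) ^ (1 / (r : ℝ))) m ∧ AlmostPrime r ((X : ℝ) ^ (1 / (r : ℝ))) (m + a) ∧
    AlmostPrime r ((X : ℝ) ^ (1 / (r : ℝ))) (m + b) ∧ AlmostPrime r ((X : ℝ) ^ (1 / (r : ℝ))) (m + c)

/-- The quadruple `m`, `m + a`, `m + b`, `m + c` is admissible: it has no fixed prime divisor. -/
def Admissible (a b c : ℕ) : Prop :=
  ∀ p : ℕ, p.Prime → ∃ m : ℕ, ¬ p ∣ m ∧ ¬ p ∣ m + a ∧ ¬ p ∣ m + b ∧ ¬ p ∣ m + c

open Classical in
/-- The sieve density: the product of `1 - ρ(p) / p` over the primes `p ≤ X ^ (1 / r)`, where `ρ(p)` is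
the number of the `t` mod `p` with `p ∣ t`, `p ∣ t + a`, `p ∣ t + b` or `p ∣ t + c`. -/
noncomputable def V (r X a b c : ℕ) : ℝ :=
  ∏ p ∈ (Finset.range (⌊(X : ℝ) ^ (1 / (r : ℝ))⌋₊ + 1)).filter Nat.Prime,
    (1 - (((Finset.range p).filter (fun t : ℕ => p ∣ t ∨ p ∣ t + a ∨ p ∣ t + b ∨ p ∣ t + c)).card : ℝ) / p)

open Classical in
/-- The number of the good `q` in `(Z, Z + Y]` with fewer than `k` good integers in `[q - T, q)`, that is,
whose `k`-th good predecessor is at distance more than `T`. For `k = 1`: the good `q` in `(Z, Z + Y]`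
with gap more than `T` before them. -/
noncomputable def Far (r X a b c Z Y k T : ℕ) : ℕ :=
  ((Finset.Ioc Z (Z + Y)).filter (fun q => Good r X a b c q ∧
    ((Finset.Ico (q - T) q).filter (fun m => Good r X a b c m)).card < k)).card

open Pool.Agent.TH464.PO

open Classical in
/-- **The exponential law for the gaps** (`k = 1`, all `T`), and the Gamma law for the distances to the
`k`-th predecessor, uniformly in the pattern and in all intervals. -/
theorem result (θ : ℝ) (hθ : 0 < θ) (k0 : ℕ) (x ε : ℝ) (hε : 0 < ε) :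
    ∃ r0 : ℕ, ∀ r : ℕ, r0 ≤ r → ∀ᶠ X : ℕ in atTop, ∀ a b c : ℕ, 1 ≤ a → a < b → b < c → c ≤ X → Admissible a b c →
      ∀ Z Y : ℕ, (X : ℝ) ^ θ ≤ Y → Z + Y ≤ 2 * X → ∀ k T : ℕ, (k ≤ k0 ∨ T * V r X a b c ≤ x) →
        |(Far r X a b c Z Y k T : ℝ) - Y * V r X a b c *
          ∑ j ∈ Finset.range k, Real.exp (-(T * V r X a b c)) * (T * V r X a b c) ^ j / j.factorial| ≤
            ε * (Y * V r X a b c) := by
  obtain ⟨r0, h⟩ := sh_gaps 4 (by norm_num) θ hθ k0 x ε hε
  refine ⟨r0, fun r hr => ?_⟩
  filter_upwards [h r hr] with X hX a b c ha hb hc hcX had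
  exact hX (P4 a b c) (P4_card a b c ha hb hc) (P4_le a b c X hb hc hcX) (P4_ad a b c had)
    (Good r X a b c) (V r X a b c) (P4_ap a b c r _) (P4_V a b c _)

end Pool.Agent.Results.MP_092512_nt.GapsUniform
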